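import Pool.Agent.H180.Net.C24
import Pool.Agent.H180.Net.C120
import Pool.Agent.H180.Net.C600

/-!
# The 24-cell, the 120-cell and the 600-cell are not all-net

All definitions are in `Pool.Agent.H180.Net.Defs`:

* `IsFace P F k`: `F` is a `k`-dimensional face of the polytope `P ⊆ ℝⁿ` (the nonempty set of the points
  where a linear functional is maximal on `P`, of affine dimension `k`); `Facet P`: the `(n-1)`-dimensional
  faces; `dualGraph P`: facets are adjacent if they share an `(n-2)`-dimensional face (ridge).
* `RidgeUnfolding P`: a spanning tree `T` of the dual graph, a hyperplane `H`, and for each facet `F` an
  isometry `dev F` of `ℝⁿ` with `dev F (F) ⊆ H`, such that for `F`, `G` adjacent in `T` the maps `dev F`,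
  `dev G` agree on `F ∩ G` and the images of `F` and `G` lie on different sides of a hyperplane, hence on
  the two sides of the image of the common ridge (`Hinged`, `OnTwoSides`).
* `IsNet`: the relative interiors of the images of two different facets are disjoint; `AllNet P`: every
  ridge unfolding of `P` is a net.
* `cell24`, `cell120`, `cell600`: the convex hulls of the standard 24, 600 and 120 vertices.

The proof. The overlap of two facets only depends on the path of `T` joining them. For the 24-cell there is
a path of 8 octahedra, for the 120-cell a path of 6 dodecahedra and for the 600-cell a path of 8 tetrahedra
whose first and last members overlap after the development (exact computation in `ℚ(√5)`), and each path of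
the dual graph is contained in a spanning tree.
-/

set_option autoImplicit false

namespace Pool.Agent.Results.MP_6fbbc1_co.OverlappingUnfoldings

open Pool.Agent.H180.Net

/-- Each of the 24-cell, the 120-cell and the 600-cell fails to be all-net: it has a ridge unfolding in which
two facet images overlap. -/
theorem result : ¬ AllNet cell24 ∧ ¬ AllNet cell120 ∧ ¬ AllNet cell600 :=
  ⟨C24.result, C120.result, C600.result⟩

end Pool.Agent.Results.MP_6fbbc1_co.OverlappingUnfoldings
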